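import Pool.Agent.helper75.WB.SpecI
import Pool.Agent.helper86.PrimesDyadic

/-! Row wb:I.IPR: primes in `[N^β, 2 N^β)`. -/

set_option autoImplicit false

namespace Pool.Agent.WB

open Finset Filter

theorem prs_eq77 (M : ℝ) : prs M = Pool.Agent.helper86.dyadicPrimes M := by
  ext p
  rw [mem_prs, Pool.Agent.helper86.mem_dyadicPrimes]

theorem IPR : IPR_stmt := by
  refine ⟨?_, ?_⟩
  · intro β hβ δ hδ
    obtain ⟨η, hη0, hη1, hη2⟩ : ∃ η : ℝ, 0 < η ∧ η < 1 ∧ β * η ≤ δ := by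
      refine ⟨min (δ / β) (1 / 2), lt_min (div_pos hδ hβ) (by norm_num), ?_, ?_⟩
      · exact lt_of_le_of_lt (min_le_right _ _) (by norm_num)
      · calc β * min (δ / β) (1 / 2) ≤ β * (δ / β) :=
            mul_le_mul_of_nonneg_left (min_le_left _ _) hβ.le
          _ = δ := by field_simp
    have ht : Tendsto (fun N : ℕ => (N : ℝ) ^ β) atTop atTop :=
      (tendsto_rpow_atTop hβ).comp tendsto_natCast_atTop_atTop
    have h := ht.eventually (Pool.Agent.helper86.dyadicPrimes_ge hη0 hη1)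
    obtain ⟨N₀, hN₀⟩ := eventually_atTop.1 h
    refine ⟨max N₀ 1, fun N hN => ?_⟩
    have h1 := hN₀ N (le_trans (le_max_left _ _) hN)
    have hN1 : (1 : ℝ) ≤ N := by exact_mod_cast le_trans (le_max_right _ _) hN
    rw [prs_eq77]
    refine le_trans ?_ h1
    rw [← Real.rpow_mul (by linarith)]
    apply Real.rpow_le_rpow_of_exponent_le hN1
    nlinarith
  · intro Y hY
    have h1 : (prs Y).card ≤ ⌊2 * Y⌋₊ + 1 := by
      unfold prs
      exact (card_filter_le _ _).trans (by rw [card_range])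
    have h2 : ((⌊2 * Y⌋₊ : ℕ) : ℝ) ≤ 2 * Y := Nat.floor_le (by linarith)
    have h3 : ((prs Y).card : ℝ) ≤ (⌊2 * Y⌋₊ : ℕ) + 1 := by exact_mod_cast h1
    linarith

end Pool.Agent.WB
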