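import Pool.Agent.helper78.WB.SpecIII

/-!
# Project wb, row VALC: value functions modulo a product of different primes
-/

set_option autoImplicit false

namespace Pool.Agent.WB

open MvPolynomial

namespace H77

/-- Chinese remainder for two coprime moduli -/
theorem two (n a b : ℕ) (ha : a ≠ 0) (hb : b ≠ 0) (hab : Nat.Coprime a b) (C : Finset V3) :
    (valSet n (a * b) C).ncard ≤ (valSet n a C).ncard * (valSet n b C).ncard := by
  have : NeZero a := ⟨ha⟩
  have : NeZero b := ⟨hb⟩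
  rw [← Set.ncard_prod]
  refine Set.ncard_le_ncard_of_injOn (fun g : C → ZMod (a * b) =>
    ((fun ζ => ZMod.castHom (Dvd.intro b rfl : a ∣ a * b) (ZMod a) (g ζ)),
     (fun ζ => ZMod.castHom (Dvd.intro_left a rfl : b ∣ a * b) (ZMod b) (g ζ)))) ?_ ?_ (Set.toFinite _)
  · rintro g ⟨Q, hQ, hg⟩
    refine ⟨⟨Q, hQ, fun ζ => ?_⟩, ⟨Q, hQ, fun ζ => ?_⟩⟩
    · simp only [hg ζ, map_intCast]
    · simp only [hg ζ, map_intCast]
  · rintro g ⟨Q, hQ, hg⟩ g' ⟨Q', hQ', hg'⟩ hgg
    simp only [Prod.mk.injEq] at hgg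
    obtain ⟨h1, h2⟩ := hgg
    funext ζ
    have e1 := congrFun h1 ζ
    have e2 := congrFun h2 ζ
    simp only [hg ζ, hg' ζ, map_intCast] at e1 e2
    rw [ZMod.intCast_eq_intCast_iff_dvd_sub] at e1 e2
    rw [hg ζ, hg' ζ, ZMod.intCast_eq_intCast_iff_dvd_sub]
    have hc : IsCoprime (a : ℤ) (b : ℤ) := Nat.isCoprime_iff_coprime.2 hab
    have := hc.mul_dvd e1 e2
    exact_mod_cast this

end H77

theorem VALC : VALC_stmt := by
  intro n C LL
  induction LL using Finset.induction_on with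
  | empty =>
    intro _
    simp only [Finset.prod_empty]
    rw [Set.ncard_le_one (Set.toFinite _)]
    intro x _ y _
    funext ζ
    exact Subsingleton.elim _ _
  | insert ℓ S hℓ ih =>
    intro hp
    rw [Finset.prod_insert hℓ, Finset.prod_insert hℓ]
    have hS : ∀ q ∈ S, q.Prime := fun q hq => hp q (Finset.mem_insert_of_mem hq)
    have hℓp : ℓ.Prime := hp ℓ (Finset.mem_insert_self _ _)
    have hcop : Nat.Coprime ℓ (∏ q ∈ S, q) := by
      refine Nat.Coprime.prod_right fun q hq => ?_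
      exact (Nat.coprime_primes hℓp (hS q hq)).2 (fun h => hℓ (h ▸ hq))
    have hne : (∏ q ∈ S, q) ≠ 0 := Finset.prod_ne_zero_iff.2 fun q hq => (hS q hq).ne_zero
    exact le_trans (H77.two n ℓ _ hℓp.ne_zero hne hcop C) (Nat.mul_le_mul_left _ (ih hS))

end Pool.Agent.WB
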